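import Pool.Agent.helper74.MQ.Spec

/-!
# mq:JMP: the jump of the trajectory integral across the trajectory
-/

set_option autoImplicit false

open Complex Metric Set Filter Topology MeasureTheory MPS

noncomputable section

namespace MQ

section
variable {k : ℕ} [NeZero k] {b g : ZMod k → ℂ}

theorem JMP_open (a c : ℝ) : IsOpen {w : ℂ | a < w.im ∧ w.im < c} :=
  (isOpen_lt continuous_const Complex.continuous_im).inter
    (isOpen_lt Complex.continuous_im continuous_const)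

theorem JMP_left {i : ZMod k} {ψ ψ' : ℂ → ℂ} (hp : PN b g i ψ 1) {S : ℂ} {a c : ℝ} {χ : ℂ → ℂ}
    (h : IsStrip b g ψ ψ' S a c χ) {w : ℂ} (h1 : a < w.im) (h2 : w.im < c) (h3 : w.re < 0) :
    deriv χ w = deriv ψ (Complex.exp w) * Complex.exp w := by
  have hev : χ =ᶠ[𝓝 w] hat ψ := by
    filter_upwards [(JMP_open a c).mem_nhds ⟨h1, h2⟩,
      (isOpen_lt Complex.continuous_re continuous_const).mem_nhds h3] with v hv hv'
    exact h.left v hv.1 hv.2 hv'
  rw [hev.deriv_eq]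
  have he : Complex.exp w ∈ ball (0 : ℂ) 1 := by
    rw [mem_ball_zero_iff, Complex.norm_exp]
    exact Real.exp_lt_one_iff.mpr h3
  have hd : DifferentiableAt ℂ ψ (Complex.exp w) :=
    hp.diff.differentiableAt (isOpen_ball.mem_nhds he)
  exact (hd.hasDerivAt.comp w (Complex.hasDerivAt_exp w)).deriv

theorem JMP_right {l : ZMod k} {ψ ψ' : ℂ → ℂ} (hp : PN b g l ψ' 1) {S : ℂ} {a c : ℝ} {χ : ℂ → ℂ}
    (h : IsStrip b g ψ ψ' S a c χ) {w : ℂ} (h1 : a < w.im) (h2 : w.im < c) (h3 : S.re < w.re) :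
    deriv χ w = -(deriv ψ' (Complex.exp (S - w)) * Complex.exp (S - w)) := by
  have hev : χ =ᶠ[𝓝 w] fun v => hat ψ' (S - v) := by
    filter_upwards [(JMP_open a c).mem_nhds ⟨h1, h2⟩,
      (isOpen_lt continuous_const Complex.continuous_re).mem_nhds h3] with v hv hv'
    exact h.right v hv.1 hv.2 hv'
  rw [hev.deriv_eq]
  have he : Complex.exp (S - w) ∈ ball (0 : ℂ) 1 := by
    rw [mem_ball_zero_iff, Complex.norm_exp]
    apply Real.exp_lt_one_iff.mpr
    rw [Complex.sub_re]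
    linarith
  have hd : DifferentiableAt ℂ ψ' (Complex.exp (S - w)) :=
    hp.diff.differentiableAt (isOpen_ball.mem_nhds he)
  have h4 : HasDerivAt (fun v => S - v) (-1) w := by
    simpa using (hasDerivAt_id w).const_sub S
  have h5 : HasDerivAt (fun v => Complex.exp (S - v)) (Complex.exp (S - w) * (-1)) w :=
    (Complex.hasDerivAt_exp (S - w)).comp w h4
  have h6 := (hd.hasDerivAt.comp w h5).deriv
  have h7 : (fun v => hat ψ' (S - v)) = ψ' ∘ fun v => Complex.exp (S - v) := rfl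
  rw [h7, h6]
  ring

theorem JMP_bd {i : ZMod k} {ψ : ℂ → ℂ} (hp : PN b g i ψ 1) :
    ∃ C : ℝ, ∀ w : ℂ, w.re ≤ -1 →
      ‖deriv ψ (Complex.exp w) * Complex.exp w‖ ≤ C * Real.exp w.re := by
  have hc : ContinuousOn (deriv ψ) (closedBall 0 (Real.exp (-1))) :=
    (hp.diff.deriv isOpen_ball).continuousOn.mono (closedBall_subset_ball (by
      apply Real.exp_lt_one_iff.mpr
      norm_num))
  obtain ⟨C, hC⟩ := (isCompact_closedBall (0 : ℂ) (Real.exp (-1))).exists_bound_of_continuousOn hc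
  refine ⟨C, fun w hw => ?_⟩
  rw [norm_mul, Complex.norm_exp]
  refine mul_le_mul_of_nonneg_right (hC _ ?_) (Real.exp_pos _).le
  rw [mem_closedBall_zero_iff, Complex.norm_exp]
  exact Real.exp_le_exp.mpr hw

theorem JMP_cont {ψ ψ' : ℂ → ℂ} {S : ℂ} {a c : ℝ} {χ : ℂ → ℂ} (h : IsStrip b g ψ ψ' S a c χ)
    {y : ℝ} (h1 : a < y) (h2 : y < c) :
    Continuous (fun t : ℝ => deriv χ ((t : ℂ) + y * I)) := by
  have hd : ContinuousOn (deriv χ) {w | a < w.im ∧ w.im < c} :=
    (h.nat.diff.deriv (JMP_open a c)).continuousOn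
  refine hd.comp_continuous (by fun_prop) (fun t => ?_)
  simp [h1, h2]

theorem JMP_cont0 {ψ ψ' : ℂ → ℂ} {S : ℂ} {a c : ℝ} {χ : ℂ → ℂ} (h : IsStrip b g ψ ψ' S a c χ)
    {y : ℝ} (h1 : a < y) (h2 : y < c) :
    Continuous (fun t : ℝ => χ ((t : ℂ) + y * I)) := by
  refine h.nat.diff.continuousOn.comp_continuous (by fun_prop) (fun t => ?_)
  simp [h1, h2]

theorem JMP_int {i l : ZMod k} {ψ ψ' : ℂ → ℂ} (hp : PN b g i ψ 1) (hp' : PN b g l ψ' 1) {S : ℂ}
    {a c : ℝ} {χ : ℂ → ℂ} (h : IsStrip b g ψ ψ' S a c χ) {y : ℝ} (h1 : a < y) (h2 : y < c) :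
    Integrable (fun t : ℝ => deriv χ ((t : ℂ) + y * I)) := by
  have hcont := JMP_cont h h1 h2
  obtain ⟨C, hC⟩ := JMP_bd hp
  obtain ⟨C', hC'⟩ := JMP_bd hp'
  set M : ℝ := max (-1) (S.re + 1) with hM
  rw [← integrableOn_univ]
  have hu : (univ : Set ℝ) = Iic (-1) ∪ (Icc (-1) M ∪ Ioi M) := by
    ext t
    simp only [mem_univ, mem_union, mem_Iic, mem_Icc, mem_Ioi, true_iff]
    by_cases h3 : t ≤ -1
    · exact Or.inl h3
    · right
      by_cases h4 : t ≤ M
      · exact Or.inl ⟨(not_le.mp h3).le, h4⟩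
      · exact Or.inr (not_le.mp h4)
  rw [hu]
  refine IntegrableOn.union ?_ (IntegrableOn.union hcont.continuousOn.integrableOn_Icc ?_)
  · refine Integrable.mono' ((integrableOn_exp_Iic (-1)).const_mul C)
      hcont.aestronglyMeasurable ?_
    refine (ae_restrict_iff' measurableSet_Iic).mpr (ae_of_all _ fun t ht => ?_)
    have ht' : t ≤ -1 := ht
    rw [JMP_left hp h (by simpa using h1) (by simpa using h2) (by simp; linarith)]
    have := hC ((t : ℂ) + y * I) (by simpa using ht')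
    simpa using this
  · have hi := (exp_neg_integrableOn_Ioi M (b := 1) one_pos).const_mul (C' * Real.exp S.re)
    refine Integrable.mono' hi hcont.aestronglyMeasurable ?_
    refine (ae_restrict_iff' measurableSet_Ioi).mpr (ae_of_all _ fun t ht => ?_)
    have ht' : M < t := ht
    have h5 : S.re + 1 < t := lt_of_le_of_lt (le_max_right _ _) ht'
    rw [JMP_right hp' h (by simpa using h1) (by simpa using h2) (by simp; linarith), norm_neg]
    have := hC' (S - ((t : ℂ) + y * I)) (by simp; linarith)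
    refine this.trans (le_of_eq ?_)
    have h6 : (S - ((t : ℂ) + y * I)).re = S.re + -1 * t := by simp; ring
    rw [h6, Real.exp_add]
    ring

theorem JMP_lim1 {i : ZMod k} {ψ ψ' : ℂ → ℂ} (hp : PN b g i ψ 1) {S : ℂ}
    {a c : ℝ} {χ : ℂ → ℂ} (h : IsStrip b g ψ ψ' S a c χ) {y : ℝ} (h1 : a < y) (h2 : y < c) :
    Tendsto (fun t : ℝ => χ ((t : ℂ) + y * I)) atBot (𝓝 (b i)) := by
  have h3 : Tendsto (fun t : ℝ => Complex.exp ((t : ℂ) + y * I)) atBot (𝓝 0) := by
    rw [tendsto_zero_iff_norm_tendsto_zero]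
    have : ∀ t : ℝ, ‖Complex.exp ((t : ℂ) + y * I)‖ = Real.exp t := by
      intro t
      rw [Complex.norm_exp]
      simp
    simp_rw [this]
    exact Real.tendsto_exp_atBot
  have h4 : ContinuousAt ψ 0 :=
    (hp.diff.differentiableAt (isOpen_ball.mem_nhds (mem_ball_self one_pos))).continuousAt
  have h5 : Tendsto (fun t : ℝ => ψ (Complex.exp ((t : ℂ) + y * I))) atBot (𝓝 (b i)) := by
    rw [← hp.val]
    exact h4.tendsto.comp h3
  refine h5.congr' ?_
  filter_upwards [eventually_lt_atBot (0 : ℝ)] with t ht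
  exact (h.left _ (by simpa using h1) (by simpa using h2) (by simpa using ht)).symm

theorem JMP_lim2 {l : ZMod k} {ψ ψ' : ℂ → ℂ} (hp : PN b g l ψ' 1) {S : ℂ}
    {a c : ℝ} {χ : ℂ → ℂ} (h : IsStrip b g ψ ψ' S a c χ) {y : ℝ} (h1 : a < y) (h2 : y < c) :
    Tendsto (fun t : ℝ => χ ((t : ℂ) + y * I)) atTop (𝓝 (b l)) := by
  have h3 : Tendsto (fun t : ℝ => Complex.exp (S - ((t : ℂ) + y * I))) atTop (𝓝 0) := by
    rw [tendsto_zero_iff_norm_tendsto_zero]
    have : ∀ t : ℝ, ‖Complex.exp (S - ((t : ℂ) + y * I))‖ = Real.exp (S.re - t) := by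
      intro t
      rw [Complex.norm_exp]
      simp
    simp_rw [this]
    refine Real.tendsto_exp_atBot.comp ?_
    exact tendsto_atBot_add_const_left _ _ tendsto_neg_atTop_atBot
  have h4 : ContinuousAt ψ' 0 :=
    (hp.diff.differentiableAt (isOpen_ball.mem_nhds (mem_ball_self one_pos))).continuousAt
  have h5 : Tendsto (fun t : ℝ => ψ' (Complex.exp (S - ((t : ℂ) + y * I)))) atTop (𝓝 (b l)) := by
    rw [← hp.val]
    exact h4.tendsto.comp h3
  refine h5.congr' ?_
  filter_upwards [eventually_gt_atTop S.re] with t ht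
  exact (h.right _ (by simpa using h1) (by simpa using h2) (by simpa using ht)).symm

/-- a continuous curve with limits `u`, `v` at the ends, avoiding `p` on the closed set `T`, has positive
distance from `p` on `T` -/
theorem JMP_dist {f : ℝ → ℂ} {u v p : ℂ} (hf : Continuous f) (hu : Tendsto f atBot (𝓝 u))
    (hv : Tendsto f atTop (𝓝 v)) (h1 : u ≠ p) (h2 : v ≠ p) {T : Set ℝ} (hT : IsClosed T)
    (h3 : ∀ t ∈ T, f t ≠ p) : ∃ c > 0, ∀ t ∈ T, c ≤ ‖f t - p‖ := by
  have e1 : ∀ᶠ t in atBot, ‖u - p‖ / 2 < ‖f t - p‖ := by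
    have : Tendsto (fun t => ‖f t - p‖) atBot (𝓝 ‖u - p‖) := (hu.sub_const p).norm
    exact this.eventually (lt_mem_nhds (half_lt_self (norm_pos_iff.mpr (sub_ne_zero.mpr h1))))
  have e2 : ∀ᶠ t in atTop, ‖v - p‖ / 2 < ‖f t - p‖ := by
    have : Tendsto (fun t => ‖f t - p‖) atTop (𝓝 ‖v - p‖) := (hv.sub_const p).norm
    exact this.eventually (lt_mem_nhds (half_lt_self (norm_pos_iff.mpr (sub_ne_zero.mpr h2))))
  obtain ⟨A, hA⟩ := eventually_atBot.mp e1
  obtain ⟨B, hB⟩ := eventually_atTop.mp e2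
  have hcomp : IsCompact (T ∩ Icc A B) := isCompact_Icc.inter_left hT
  have h4 : ∃ c > 0, ∀ t ∈ T ∩ Icc A B, c ≤ ‖f t - p‖ := by
    rcases (T ∩ Icc A B).eq_empty_or_nonempty with he | hne
    · exact ⟨1, one_pos, fun t ht => by rw [he] at ht; exact absurd ht (notMem_empty t)⟩
    · obtain ⟨x, hx, hx'⟩ := hcomp.exists_isMinOn hne
        (f := fun t => ‖f t - p‖) (by fun_prop)
      exact ⟨‖f x - p‖, norm_pos_iff.mpr (sub_ne_zero.mpr (h3 x hx.1)), fun t ht => hx' ht⟩
  obtain ⟨c, hc, hc'⟩ := h4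
  refine ⟨min c (min (‖u - p‖ / 2) (‖v - p‖ / 2)), lt_min hc (lt_min
    (half_pos (norm_pos_iff.mpr (sub_ne_zero.mpr h1)))
    (half_pos (norm_pos_iff.mpr (sub_ne_zero.mpr h2)))), fun t ht => ?_⟩
  by_cases h5 : t ≤ A
  · exact ((min_le_right _ _).trans (min_le_left _ _)).trans (hA t h5).le
  · by_cases h6 : B ≤ t
    · exact ((min_le_right _ _).trans (min_le_right _ _)).trans (hB t h6).le
    · exact (min_le_left _ _).trans (hc' t ⟨ht, ⟨(not_le.mp h5).le, (not_le.mp h6).le⟩⟩)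

/-- integrability of `λ' / (λ - p)` -/
theorem JMP_int2 {f f' : ℝ → ℂ} {p : ℂ} (hf : Continuous f) (hf' : Integrable f')
    (hc' : Continuous f') (h : ∃ c > 0, ∀ t, c ≤ ‖f t - p‖) :
    Integrable (fun t => f' t / (f t - p)) := by
  obtain ⟨c, hc, h1⟩ := h
  have h2 : ∀ t, f t - p ≠ 0 := fun t => norm_pos_iff.mp (hc.trans_le (h1 t))
  refine Integrable.mono' (hf'.norm.div_const c) ?_ (ae_of_all _ fun t => ?_)
  · exact (hc'.div (hf.sub continuous_const) h2).aestronglyMeasurable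
  · rw [norm_div]
    exact div_le_div_of_nonneg_left (norm_nonneg _) hc (h1 t)

/-- the integral of the kernel `1/(t - is) - 1/(t + is)` -/
theorem JMP_ker (t₀ : ℝ) {s : ℝ} (hs : 0 < s) :
    Integrable (fun t : ℝ => 1 / ((t : ℂ) - t₀ - s * I) - 1 / ((t : ℂ) - t₀ + s * I)) ∧
    ∫ t : ℝ, (1 / ((t : ℂ) - t₀ - s * I) - 1 / ((t : ℂ) - t₀ + s * I)) = 2 * Real.pi * I := by
  have h0 : ∀ t : ℝ, 1 / ((t : ℂ) - t₀ - s * I) - 1 / ((t : ℂ) - t₀ + s * I) =
      (2 * I / s) * (((1 + (s⁻¹ * (t - t₀)) ^ 2)⁻¹ : ℝ) : ℂ) := by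
    intro t
    have hs' : (s : ℂ) ≠ 0 := by exact_mod_cast hs.ne'
    have h1 : (t : ℂ) - t₀ - s * I ≠ 0 := by
      intro h
      have := congrArg Complex.im h
      simp at this
      exact hs.ne' this
    have h2 : (t : ℂ) - t₀ + s * I ≠ 0 := by
      intro h
      have := congrArg Complex.im h
      simp at this
      exact hs.ne' this
    have h3 : (1 : ℂ) + ((s : ℂ)⁻¹ * ((t : ℂ) - t₀)) ^ 2 ≠ 0 := by
      have : (0 : ℝ) < 1 + (s⁻¹ * (t - t₀)) ^ 2 := by positivity
      have h4 := this.ne'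
      exact_mod_cast h4
    push_cast
    have h5 : ((t : ℂ) - t₀ - s * I) * ((t : ℂ) - t₀ + s * I) =
        s ^ 2 * (1 + ((s : ℂ)⁻¹ * ((t : ℂ) - t₀)) ^ 2) := by
      field_simp
      ring_nf
      rw [Complex.I_sq]
      ring
    rw [div_sub_div _ _ h1 h2, h5]
    field_simp
    ring
  have h1 : Integrable (fun t : ℝ => (1 + (s⁻¹ * (t - t₀)) ^ 2)⁻¹) := by
    have := (integrable_inv_one_add_sq.comp_mul_left' (inv_ne_zero hs.ne')).comp_sub_right t₀
    exact this
  constructor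
  · simp_rw [h0]
    exact (h1.ofReal).const_mul _
  · simp_rw [h0]
    rw [integral_const_mul, integral_complex_ofReal]
    have h2 : ∫ t : ℝ, (1 + (s⁻¹ * (t - t₀)) ^ 2)⁻¹ = s * Real.pi := by
      have e1 := integral_sub_right_eq_self (μ := volume) (fun t : ℝ => (1 + (s⁻¹ * t) ^ 2)⁻¹) t₀
      rw [e1]
      have e2 := Measure.integral_comp_mul_left (fun t : ℝ => (1 + t ^ 2)⁻¹) s⁻¹
      rw [e2, integral_univ_inv_one_add_sq]
      rw [inv_inv, abs_of_pos hs, smul_eq_mul]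
    rw [h2]
    have hs' : (s : ℂ) ≠ 0 := by exact_mod_cast hs.ne'
    push_cast
    field_simp

/-- the local estimate near the diagonal -/
theorem JMP_loc {χ : ℂ → ℂ} {Ω : Set ℂ} (hO : IsOpen Ω) (hd : DifferentiableOn ℂ χ Ω) {w₀ : ℂ}
    (hw : w₀ ∈ Ω) (h0 : deriv χ w₀ ≠ 0) :
    ∃ r > 0, ∃ K : ℝ, 0 ≤ K ∧ ball w₀ r ⊆ Ω ∧ ∀ w ∈ ball w₀ r, ∀ v ∈ ball w₀ r, w ≠ v →
      χ w ≠ χ v ∧ ‖deriv χ w / (χ w - χ v) - 1 / (w - v)‖ ≤ K := by
  have hd1 : DifferentiableOn ℂ (deriv χ) Ω := hd.deriv hO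
  have hd2 : DifferentiableOn ℂ (deriv (deriv χ)) Ω := hd1.deriv hO
  set m : ℝ := ‖deriv χ w₀‖ with hm
  have hm0 : 0 < m := norm_pos_iff.mpr h0
  set M : ℝ := ‖deriv (deriv χ) w₀‖ + 1 with hM
  have hM0 : 0 < M := by positivity
  have e1 : ∀ᶠ z in 𝓝 w₀, ‖deriv χ z - deriv χ w₀‖ < m / 2 := by
    have h1 : ContinuousAt (deriv χ) w₀ := (hd1.differentiableAt (hO.mem_nhds hw)).continuousAt
    have h2 := Metric.tendsto_nhds.mp h1.tendsto (m / 2) (half_pos hm0)
    simpa [dist_eq_norm] using h2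
  have e2 : ∀ᶠ z in 𝓝 w₀, ‖deriv (deriv χ) z‖ < M := by
    have h1 : ContinuousAt (fun z => ‖deriv (deriv χ) z‖) w₀ :=
      (hd2.differentiableAt (hO.mem_nhds hw)).continuousAt.norm
    exact h1.eventually (gt_mem_nhds (by rw [hM]; linarith))
  obtain ⟨r, hr, hr'⟩ := Metric.eventually_nhds_iff_ball.mp
    (e1.and (e2.and (hO.mem_nhds hw)))
  refine ⟨r, hr, 2 * M / m, by positivity, fun z hz => (hr' z hz).2.2, fun w hw v hv hwv => ?_⟩
  have hwv' : w - v ≠ 0 := sub_ne_zero.mpr hwv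
  have hn : 0 < ‖w - v‖ := norm_pos_iff.mpr hwv'
  have hda : ∀ z ∈ ball w₀ r, DifferentiableAt ℂ χ z := fun z hz =>
    hd.differentiableAt (hO.mem_nhds (hr' z hz).2.2)
  have hdb : ∀ z ∈ ball w₀ r, DifferentiableAt ℂ (deriv χ) z := fun z hz =>
    hd1.differentiableAt (hO.mem_nhds (hr' z hz).2.2)
  have hdf : ∀ (q z : ℂ), z ∈ ball w₀ r →
      HasDerivAt (fun z => χ z - q * z) (deriv χ z - q) z := by
    intro q z hz
    have h1 := (hda z hz).hasDerivAt.sub ((hasDerivAt_id z).const_mul q)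
    rw [mul_one] at h1
    exact h1
  have k1 : ‖(χ w - χ v) - deriv χ w₀ * (w - v)‖ ≤ m / 2 * ‖w - v‖ := by
    have := (convex_ball w₀ r).norm_image_sub_le_of_norm_deriv_le (𝕜 := ℂ)
      (f := fun z => χ z - deriv χ w₀ * z) (C := m / 2)
      (fun z hz => (hdf _ z hz).differentiableAt)
      (fun z hz => by rw [(hdf _ z hz).deriv]; exact (hr' z hz).1.le) hv hw
    refine le_trans (le_of_eq ?_) this
    congr 1
    ring
  have k2 : m / 2 * ‖w - v‖ ≤ ‖χ w - χ v‖ := by
    have h1 : ‖deriv χ w₀ * (w - v)‖ ≤ ‖χ w - χ v‖ + m / 2 * ‖w - v‖ := by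
      calc ‖deriv χ w₀ * (w - v)‖ = ‖(χ w - χ v) - ((χ w - χ v) - deriv χ w₀ * (w - v))‖ := by
            congr 1; ring
        _ ≤ ‖χ w - χ v‖ + ‖(χ w - χ v) - deriv χ w₀ * (w - v)‖ := norm_sub_le _ _
        _ ≤ _ := by linarith
    rw [norm_mul, ← hm] at h1
    linarith
  have k3 : ∀ z ∈ ball w₀ r, ‖deriv χ z - deriv χ w‖ ≤ M * ‖z - w‖ := fun z hz =>
    (convex_ball w₀ r).norm_image_sub_le_of_norm_deriv_le (𝕜 := ℂ) (f := deriv χ) (C := M)
      (fun z hz => hdb z hz) (fun z hz => (hr' z hz).2.1.le) hw hz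
  have hseg : segment ℝ v w ⊆ ball w₀ r := (convex_ball w₀ r).segment_subset hv hw
  have k4 : ‖(χ w - χ v) - deriv χ w * (w - v)‖ ≤ M * ‖w - v‖ * ‖w - v‖ := by
    have := (convex_segment (𝕜 := ℝ) v w).norm_image_sub_le_of_norm_deriv_le (𝕜 := ℂ)
      (f := fun z => χ z - deriv χ w * z) (C := M * ‖w - v‖)
      (fun z hz => (hdf _ z (hseg hz)).differentiableAt)
      (fun z hz => by
        rw [(hdf _ z (hseg hz)).deriv]
        refine (k3 z (hseg hz)).trans (mul_le_mul_of_nonneg_left ?_ hM0.le)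
        obtain ⟨a, a', ha, ha', haa, rfl⟩ := hz
        have : a • v + a' • w - w = a • (v - w) := by
          have : w = (a + a') • w := by rw [haa, one_smul]
          nth_rw 2 [this]
          rw [add_smul, smul_sub]
          abel
        rw [this, norm_smul, Real.norm_of_nonneg ha, norm_sub_rev v w]
        have : a ≤ 1 := by linarith
        exact mul_le_of_le_one_left (norm_nonneg _) this)
      (left_mem_segment ℝ v w) (right_mem_segment ℝ v w)
    refine le_trans (le_of_eq ?_) this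
    congr 1
    ring
  have k5 : 0 < ‖χ w - χ v‖ := lt_of_lt_of_le (by positivity) k2
  have k6 : χ w - χ v ≠ 0 := norm_pos_iff.mp k5
  refine ⟨sub_ne_zero.mp k6, ?_⟩
  rw [div_sub_div _ _ k6 hwv', norm_div, norm_mul, div_le_iff₀ (by positivity)]
  have k7 : ‖deriv χ w * (w - v) - (χ w - χ v) * 1‖ ≤ M * ‖w - v‖ * ‖w - v‖ := by
    rw [mul_one, norm_sub_rev]
    exact k4
  refine k7.trans ?_
  have k8 : 2 * M / m * (m / 2 * ‖w - v‖ * ‖w - v‖) = M * ‖w - v‖ * ‖w - v‖ := by
    field_simp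
  rw [← k8]
  gcongr

end

theorem JMP (hL : LDIS_stmt) : JMP_stmt := by
  intro k _ b g ψ hF i l S y e t₀ χ hil he ht0 h
  have hy1 : y - e < y := by linarith
  have hy2 : y < y + e := by linarith
  have hpi := (hF.mx i).pn
  have hpl := (hF.mx l).pn
  set Ω : Set ℂ := {w | y - e < w.im ∧ w.im < y + e} with hΩ
  have hO : IsOpen Ω := JMP_open _ _
  set w₀ : ℂ := (t₀ : ℂ) + y * I with hw₀
  have hw : w₀ ∈ Ω := by
    refine ⟨?_, ?_⟩ <;> simp [hw₀, he]
  have h0 : deriv χ w₀ ≠ 0 := by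
    intro h1
    have := h.nat.eq w₀ hw
    rw [h1] at this
    norm_num at this
  obtain ⟨r, hr, K, hK, hrΩ, hloc⟩ := JMP_loc hO h.nat.diff hw h0
  set f : ℝ → ℂ := fun t => χ ((t : ℂ) + y * I) with hf
  set f' : ℝ → ℂ := fun t => deriv χ ((t : ℂ) + y * I) with hf'
  have cf : Continuous f := JMP_cont0 h hy1 hy2
  have cf' : Continuous f' := JMP_cont h hy1 hy2
  have intf' : Integrable f' := JMP_int hpi hpl h hy1 hy2
  have lim1 : Tendsto f atBot (𝓝 (b i)) := JMP_lim1 hpi h hy1 hy2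
  have lim2 : Tendsto f atTop (𝓝 (b l)) := JMP_lim2 hpl h hy1 hy2
  -- injectivity
  have hinj : ∀ (t : ℝ) (v : ℂ), v ∈ Ω → f t = χ v → t = v.re := by
    intro t v hv h1
    have h2 := (hL k b g ψ hF i l l S S (y - e) (y + e) (y - e) (y + e) χ χ hil hil h h).1
      ((t : ℂ) + y * I) v (by simpa using hy1) (by simpa using hy2) hv.1 hv.2 h1
    have h3 := congrArg norm h2
    rw [Complex.norm_exp, Complex.norm_exp] at h3
    simpa using Real.exp_injective h3
  -- the points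
  set P : ℝ → ℂ := fun s => χ (w₀ + s * I) with hP
  set Q : ℝ → ℂ := fun s => χ (w₀ - s * I) with hQ
  have hb : ∀ s : ℝ, 0 < s → s < r → w₀ + s * I ∈ ball w₀ r ∧ w₀ - s * I ∈ ball w₀ r := by
    intro s hs hs'
    rw [mem_ball_iff_norm, mem_ball_iff_norm]
    constructor <;> simpa [abs_of_pos hs] using hs'
  have hne : ∀ (s : ℝ), 0 < s → s < r → ∀ t, f t ≠ P s ∧ f t ≠ Q s := by
    intro s hs hs' t
    have hb1 := hb s hs hs'
    by_cases ht : t = t₀
    · subst ht
      constructor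
      · refine (hloc w₀ (mem_ball_self hr) _ hb1.1 ?_).1
        intro h1
        have h2 := congrArg Complex.im h1
        simp at h2
        exact hs.ne' h2
      · refine (hloc w₀ (mem_ball_self hr) _ hb1.2 ?_).1
        intro h1
        have h2 := congrArg Complex.im h1
        simp at h2
        linarith
    · constructor
      · intro h1
        exact ht (by simpa [hw₀] using hinj t _ (hrΩ hb1.1) h1)
      · intro h1
        exact ht (by simpa [hw₀] using hinj t _ (hrΩ hb1.2) h1)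
  have hav : ∀ v ∈ Ω, b i ≠ χ v ∧ b l ≠ χ v := fun v hv =>
    ⟨(h.nat.av v hv i).symm, (h.nat.av v hv l).symm⟩
  have intP : ∀ s : ℝ, 0 < s → s < r → Integrable (fun t => f' t / (f t - P s)) := by
    intro s hs hs'
    have h1 := hav _ (hrΩ (hb s hs hs').1)
    obtain ⟨c, hc, hc'⟩ := JMP_dist cf lim1 lim2 h1.1 h1.2 isClosed_univ
      (fun t _ => (hne s hs hs' t).1)
    exact JMP_int2 cf intf' cf' ⟨c, hc, fun t => hc' t (mem_univ t)⟩
  have intQ : ∀ s : ℝ, 0 < s → s < r → Integrable (fun t => f' t / (f t - Q s)) := by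
    intro s hs hs'
    have h1 := hav _ (hrΩ (hb s hs hs').2)
    obtain ⟨c, hc, hc'⟩ := JMP_dist cf lim1 lim2 h1.1 h1.2 isClosed_univ
      (fun t _ => (hne s hs hs' t).2)
    exact JMP_int2 cf intf' cf' ⟨c, hc, fun t => hc' t (mem_univ t)⟩
  -- distance from the point `χ w₀`
  obtain ⟨c, hc, hc'⟩ : ∃ c > 0, ∀ t ∈ {t : ℝ | r ≤ |t - t₀|}, c ≤ ‖f t - χ w₀‖ := by
    refine JMP_dist cf lim1 lim2 (hav w₀ hw).1 (hav w₀ hw).2
      (isClosed_le continuous_const (by fun_prop)) (fun t ht h1 => ?_)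
    have h2 : t = t₀ := by simpa [hw₀] using hinj t w₀ hw h1
    have h3 : r ≤ |t - t₀| := ht
    rw [h2, sub_self, abs_zero] at h3
    linarith
  have hχc : ContinuousAt χ w₀ := (h.nat.diff.differentiableAt (hO.mem_nhds hw)).continuousAt
  have limP : Tendsto P (𝓝[>] 0) (𝓝 (χ w₀)) := by
    have h1 : Tendsto (fun s : ℝ => w₀ + s * I) (𝓝 0) (𝓝 w₀) := by
      have : Continuous (fun s : ℝ => w₀ + s * I) := by fun_prop
      simpa using this.tendsto 0
    exact (hχc.tendsto.comp h1).mono_left nhdsWithin_le_nhds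
  have limQ : Tendsto Q (𝓝[>] 0) (𝓝 (χ w₀)) := by
    have h1 : Tendsto (fun s : ℝ => w₀ - s * I) (𝓝 0) (𝓝 w₀) := by
      have : Continuous (fun s : ℝ => w₀ - s * I) := by fun_prop
      simpa using this.tendsto 0
    exact (hχc.tendsto.comp h1).mono_left nhdsWithin_le_nhds
  have evP : ∀ᶠ s in 𝓝[>] (0 : ℝ), ‖P s - χ w₀‖ < c / 2 := by
    have := Metric.tendsto_nhds.mp limP (c / 2) (half_pos hc)
    simpa [dist_eq_norm] using this
  have evQ : ∀ᶠ s in 𝓝[>] (0 : ℝ), ‖Q s - χ w₀‖ < c / 2 := by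
    have := Metric.tendsto_nhds.mp limQ (c / 2) (half_pos hc)
    simpa [dist_eq_norm] using this
  have evr : ∀ᶠ s in 𝓝[>] (0 : ℝ), 0 < s ∧ s < r :=
    Ioo_mem_nhdsGT hr
  -- the kernel
  set Kf : ℝ → ℝ → ℂ := fun s t => 1 / ((t : ℂ) - t₀ - s * I) - 1 / ((t : ℂ) - t₀ + s * I)
    with hKf
  set F : ℝ → ℝ → ℂ := fun s t => (f' t / (f t - P s) - f' t / (f t - Q s)) - Kf s t with hFd
  set bd : ℝ → ℝ := fun t => 4 / c * ‖f' t‖ + 2 * r * (1 + 1 / r ^ 2) * (1 + (t - t₀) ^ 2)⁻¹ +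
    (Ioo (t₀ - r) (t₀ + r)).indicator (fun _ => 2 * K) t with hbd
  have intbd : Integrable bd := by
    refine ((intf'.norm.const_mul _).add ?_).add ?_
    · exact ((integrable_inv_one_add_sq.comp_sub_right t₀)).const_mul _
    · rw [integrable_indicator_iff measurableSet_Ioo]
      exact continuousOn_const.integrableOn_Icc.mono_set Ioo_subset_Icc_self
  have hF0 : Tendsto (fun s => ∫ t, F s t) (𝓝[>] 0) (𝓝 (∫ _t : ℝ, (0 : ℂ))) := by
    refine tendsto_integral_filter_of_dominated_convergence bd ?_ ?_ intbd ?_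
    · filter_upwards [evr] with s hs
      exact (((intP s hs.1 hs.2).sub (intQ s hs.1 hs.2)).sub
        (JMP_ker t₀ hs.1).1).aestronglyMeasurable
    · filter_upwards [evr, evP, evQ] with s hs hsP hsQ
      refine ae_of_all _ fun t => ?_
      by_cases ht : r ≤ |t - t₀|
      · have d0 := hc' t ht
        have d1 : c / 2 ≤ ‖f t - P s‖ := by
          have h1 : ‖f t - χ w₀‖ ≤ ‖f t - P s‖ + ‖P s - χ w₀‖ := by
            calc ‖f t - χ w₀‖ = ‖(f t - P s) + (P s - χ w₀)‖ := by congr 1; ring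
              _ ≤ _ := norm_add_le _ _
          linarith
        have d2 : c / 2 ≤ ‖f t - Q s‖ := by
          have h1 : ‖f t - χ w₀‖ ≤ ‖f t - Q s‖ + ‖Q s - χ w₀‖ := by
            calc ‖f t - χ w₀‖ = ‖(f t - Q s) + (Q s - χ w₀)‖ := by congr 1; ring
              _ ≤ _ := norm_add_le _ _
          linarith
        have d3 : ‖f' t / (f t - P s)‖ ≤ 2 / c * ‖f' t‖ := by
          rw [norm_div, div_le_iff₀ (by linarith)]
          calc ‖f' t‖ = 2 / c * ‖f' t‖ * (c / 2) := by field_simp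
            _ ≤ _ := by gcongr
        have d4 : ‖f' t / (f t - Q s)‖ ≤ 2 / c * ‖f' t‖ := by
          rw [norm_div, div_le_iff₀ (by linarith)]
          calc ‖f' t‖ = 2 / c * ‖f' t‖ * (c / 2) := by field_simp
            _ ≤ _ := by gcongr
        have d5 : ‖Kf s t‖ ≤ 2 * r * (1 + 1 / r ^ 2) * (1 + (t - t₀) ^ 2)⁻¹ := by
          have hs0 := hs.1
          have hx : 0 < |t - t₀| := lt_of_lt_of_le hr ht
          have hx2 : (0 : ℝ) < (t - t₀) ^ 2 := by
            rw [← sq_abs]; positivity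
          have n1 : |t - t₀| ≤ ‖(t : ℂ) - t₀ - s * I‖ := by
            have := Complex.abs_re_le_norm ((t : ℂ) - t₀ - s * I)
            simpa using this
          have n2 : |t - t₀| ≤ ‖(t : ℂ) - t₀ + s * I‖ := by
            have := Complex.abs_re_le_norm ((t : ℂ) - t₀ + s * I)
            simpa using this
          have z1 : (t : ℂ) - t₀ - s * I ≠ 0 := norm_pos_iff.mp (hx.trans_le n1)
          have z2 : (t : ℂ) - t₀ + s * I ≠ 0 := norm_pos_iff.mp (hx.trans_le n2)
          have n3 : Kf s t = 2 * s * I / (((t : ℂ) - t₀ - s * I) * ((t : ℂ) - t₀ + s * I)) := by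
            rw [hKf]
            simp only
            rw [div_sub_div _ _ z1 z2]
            congr 1
            ring
          have n4 : ‖(2 : ℂ) * s * I‖ = 2 * s := by
            simp [abs_of_pos hs0]
          rw [n3, norm_div, n4, norm_mul, div_le_iff₀ (by positivity)]
          have n5 : (t - t₀) ^ 2 ≤ ‖(t : ℂ) - t₀ - s * I‖ * ‖(t : ℂ) - t₀ + s * I‖ := by
            rw [← sq_abs, sq]
            gcongr
          have n6 : 1 ≤ (1 + 1 / r ^ 2) * (1 + (t - t₀) ^ 2)⁻¹ * (t - t₀) ^ 2 := by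
            have hr2 : r ^ 2 ≤ (t - t₀) ^ 2 := by
              rw [← sq_abs (t - t₀)]
              gcongr
            have : (1 + 1 / r ^ 2) * (1 + (t - t₀) ^ 2)⁻¹ * (t - t₀) ^ 2 =
                ((t - t₀) ^ 2 + (t - t₀) ^ 2 / r ^ 2) / (1 + (t - t₀) ^ 2) := by
              field_simp
            rw [this, le_div_iff₀ (by positivity)]
            have : 1 ≤ (t - t₀) ^ 2 / r ^ 2 := by
              rw [le_div_iff₀ (by positivity)]
              linarith
            linarith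
          calc 2 * s ≤ 2 * r * 1 := by linarith [hs.2]
            _ ≤ 2 * r * ((1 + 1 / r ^ 2) * (1 + (t - t₀) ^ 2)⁻¹ * (t - t₀) ^ 2) := by gcongr
            _ ≤ 2 * r * ((1 + 1 / r ^ 2) * (1 + (t - t₀) ^ 2)⁻¹ *
                (‖(t : ℂ) - t₀ - s * I‖ * ‖(t : ℂ) - t₀ + s * I‖)) := by gcongr
            _ = _ := by ring
        have d6 : 0 ≤ (Ioo (t₀ - r) (t₀ + r)).indicator (fun _ => 2 * K) t :=
          indicator_nonneg (fun _ _ => by positivity) t
        calc ‖F s t‖ ≤ ‖f' t / (f t - P s) - f' t / (f t - Q s)‖ + ‖Kf s t‖ := norm_sub_le _ _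
          _ ≤ ‖f' t / (f t - P s)‖ + ‖f' t / (f t - Q s)‖ + ‖Kf s t‖ := by
              gcongr
              exact norm_sub_le _ _
          _ ≤ 2 / c * ‖f' t‖ + 2 / c * ‖f' t‖ +
              2 * r * (1 + 1 / r ^ 2) * (1 + (t - t₀) ^ 2)⁻¹ := by gcongr
          _ ≤ bd t := by
              rw [hbd]
              simp only
              have : 4 / c * ‖f' t‖ = 2 / c * ‖f' t‖ + 2 / c * ‖f' t‖ := by ring
              rw [this]
              linarith
      · have ht' : |t - t₀| < r := not_le.mp ht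
        have hmem : t ∈ Ioo (t₀ - r) (t₀ + r) := by
          rw [abs_lt] at ht'
          exact ⟨by linarith [ht'.1], by linarith [ht'.2]⟩
        have hball : (t : ℂ) + y * I ∈ ball w₀ r := by
          rw [mem_ball_iff_norm]
          have : (t : ℂ) + y * I - w₀ = ((t - t₀ : ℝ) : ℂ) := by
            rw [hw₀]; push_cast; ring
          rw [this, Complex.norm_real]
          exact ht'
        have hb1 := hb s hs.1 hs.2
        have q1 : (t : ℂ) + y * I - (w₀ + s * I) = (t : ℂ) - t₀ - s * I := by rw [hw₀]; ring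
        have q2 : (t : ℂ) + y * I - (w₀ - s * I) = (t : ℂ) - t₀ + s * I := by rw [hw₀]; ring
        have hsne := hs.1.ne'
        have E1 := (hloc _ hball _ hb1.1 (by
          intro h1
          rw [← sub_eq_zero, q1] at h1
          have := congrArg Complex.im h1
          simp at this
          exact hsne this)).2
        have E2 := (hloc _ hball _ hb1.2 (by
          intro h1
          rw [← sub_eq_zero, q2] at h1
          have := congrArg Complex.im h1
          simp at this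
          exact hsne this)).2
        rw [q1] at E1
        rw [q2] at E2
        have hFE : F s t = (f' t / (f t - P s) - 1 / ((t : ℂ) - t₀ - s * I)) -
            (f' t / (f t - Q s) - 1 / ((t : ℂ) - t₀ + s * I)) := by
          rw [hFd]
          simp only [hKf]
          ring
        have d7 : (Ioo (t₀ - r) (t₀ + r)).indicator (fun _ => 2 * K) t = 2 * K :=
          indicator_of_mem hmem _
        rw [hFE]
        calc _ ≤ ‖f' t / (f t - P s) - 1 / ((t : ℂ) - t₀ - s * I)‖ +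
              ‖f' t / (f t - Q s) - 1 / ((t : ℂ) - t₀ + s * I)‖ := norm_sub_le _ _
          _ ≤ K + K := add_le_add E1 E2
          _ ≤ bd t := by
              rw [hbd]
              simp only
              rw [d7]
              have : 0 ≤ 4 / c * ‖f' t‖ + 2 * r * (1 + 1 / r ^ 2) * (1 + (t - t₀) ^ 2)⁻¹ := by
                positivity
              linarith
    · have hae : ∀ᵐ t : ℝ, t ≠ t₀ := by
        rw [ae_iff]
        simp
      filter_upwards [hae] with t ht
      have hne0 : f t - χ w₀ ≠ 0 := by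
        intro h1
        exact ht (by simpa [hw₀] using hinj t w₀ hw (sub_eq_zero.mp h1))
      have l1 : Tendsto (fun s => f' t / (f t - P s)) (𝓝[>] 0) (𝓝 (f' t / (f t - χ w₀))) :=
        tendsto_const_nhds.div (tendsto_const_nhds.sub limP) hne0
      have l2 : Tendsto (fun s => f' t / (f t - Q s)) (𝓝[>] 0) (𝓝 (f' t / (f t - χ w₀))) :=
        tendsto_const_nhds.div (tendsto_const_nhds.sub limQ) hne0
      have htt : (t : ℂ) - t₀ ≠ 0 := by
        intro h1
        apply ht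
        exact_mod_cast sub_eq_zero.mp h1
      have l3 : Tendsto (fun s : ℝ => Kf s t) (𝓝[>] 0)
          (𝓝 (1 / ((t : ℂ) - t₀) - 1 / ((t : ℂ) - t₀))) := by
        have a1 : Tendsto (fun s : ℝ => (t : ℂ) - t₀ - s * I) (𝓝[>] 0) (𝓝 ((t : ℂ) - t₀)) := by
          have : Continuous (fun s : ℝ => (t : ℂ) - t₀ - s * I) := by fun_prop
          have h2 := this.tendsto 0
          simp only [ofReal_zero, zero_mul, sub_zero] at h2
          exact h2.mono_left nhdsWithin_le_nhds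
        have a2 : Tendsto (fun s : ℝ => (t : ℂ) - t₀ + s * I) (𝓝[>] 0) (𝓝 ((t : ℂ) - t₀)) := by
          have : Continuous (fun s : ℝ => (t : ℂ) - t₀ + s * I) := by fun_prop
          have h2 := this.tendsto 0
          simp only [ofReal_zero, zero_mul, add_zero] at h2
          exact h2.mono_left nhdsWithin_le_nhds
        exact (tendsto_const_nhds.div a1 htt).sub (tendsto_const_nhds.div a2 htt)
      have := (l1.sub l2).sub l3
      simpa [hFd] using this
  rw [integral_zero] at hF0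
  have hfin : Tendsto (fun s => (∫ t, F s t) + 2 * Real.pi * I) (𝓝[>] 0)
      (𝓝 (0 + 2 * Real.pi * I)) := hF0.add_const _
  rw [zero_add] at hfin
  refine hfin.congr' ?_
  filter_upwards [evr] with s hs
  have e1 : ∫ t, F s t = (Nn χ y (P s) - Nn χ y (Q s)) - 2 * Real.pi * I := by
    have h1 : ∫ t, F s t = (∫ t, (f' t / (f t - P s) - f' t / (f t - Q s))) - ∫ t, Kf s t :=
      integral_sub ((intP s hs.1 hs.2).sub (intQ s hs.1 hs.2)) (JMP_ker t₀ hs.1).1
    rw [h1, integral_sub (intP s hs.1 hs.2) (intQ s hs.1 hs.2), (JMP_ker t₀ hs.1).2]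
    rfl
  rw [e1, sub_add_cancel]
  have e2 : (t₀ : ℂ) + ((y + s : ℝ) : ℂ) * I = w₀ + s * I := by
    rw [hw₀]; push_cast; ring
  have e3 : (t₀ : ℂ) + ((y - s : ℝ) : ℂ) * I = w₀ - s * I := by
    rw [hw₀]; push_cast; ring
  rw [e2, e3]

end MQ
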